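import Pool.Agent.Helper16.SD.GoalsD
import Pool.Agent.Helper17.TH.INS0

/-!
# Packet SD-Z_TWO
-/

set_option autoImplicit false

namespace Pool.Agent.Helper73.SD.Z_TWO

open NumberField Module IsDedekindDomain TensorProduct
open Pool.Agent.Helper51.SigLeo Pool.Agent.Helper51.RP
open Pool.Agent.Helper17.TH

/-- homomorphisms from a finitely generated group to `ℚ_p` are bounded -/
theorem bdd {p : ℕ} [Fact p.Prime] {M : Type} [AddCommGroup M] [Module.Finite ℤ M]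
    (f : M →+ ℚ_[p]) : ∃ B : ℝ, ∀ u, ‖f u‖ ≤ B := by
  obtain ⟨S, hS⟩ := Module.Finite.fg_top (R := ℤ) (M := M)
  refine ⟨∑ s ∈ S, ‖f s‖, fun u => ?_⟩
  have h0 : (0 : ℝ) ≤ ∑ s ∈ S, ‖f s‖ := Finset.sum_nonneg fun _ _ => norm_nonneg _
  have hu : u ∈ Submodule.span ℤ (S : Set M) := by rw [hS]; trivial
  induction hu using Submodule.span_induction with
  | mem x hx => exact Finset.single_le_sum (f := fun s => ‖f s‖) (fun _ _ => norm_nonneg _) hx
  | zero => rw [map_zero, norm_zero]; exact h0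
  | add x y _ _ hx hy =>
    rw [map_add]
    exact (IsUltrametricDist.norm_add_le_max _ _).trans (max_le hx hy)
  | smul a x _ hx =>
    rw [map_zsmul, zsmul_eq_mul, norm_mul]
    calc ‖(a : ℚ_[p])‖ * ‖f x‖ ≤ 1 * ‖f x‖ :=
          mul_le_mul_of_nonneg_right (Padic.norm_int_le_one a) (norm_nonneg _)
      _ = ‖f x‖ := one_mul _
      _ ≤ _ := hx

theorem exists_pow_ge {p : ℕ} (hp : 1 < p) (B : ℝ) : ∃ C : ℕ, B ≤ (p : ℝ) ^ C := by
  obtain ⟨C, hC⟩ := pow_unbounded_of_one_lt B (show (1 : ℝ) < p by exact_mod_cast hp)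
  exact ⟨C, hC.le⟩

/-- the `j(b_i)` are linearly independent over `ℚ_p` -/
theorem indep {p : ℕ} [Fact p.Prime] {O : Type} [CommRing O] [Algebra ℤ_[p] O] (j : O →+* ℂ_[p])
    (hj : Function.Injective j)
    (hjp : ∀ x : ℤ_[p], j (algebraMap ℤ_[p] O x) = algebraMap ℚ_[p] ℂ_[p] x)
    {ι : Type} [Fintype ι] (b : Basis ι ℤ_[p] O) (q : ι → ℚ_[p])
    (h : ∑ i, j (b i) * algebraMap ℚ_[p] ℂ_[p] (q i) = 0) : ∀ i, q i = 0 := by
  classical
  have hp : p.Prime := Fact.out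
  have hp0 : (p : ℚ_[p]) ≠ 0 := by exact_mod_cast hp.ne_zero
  have hM : ∀ i, ∃ M : ℕ, ‖(p : ℚ_[p]) ^ M * q i‖ ≤ 1 := by
    intro i
    obtain ⟨M, hM⟩ := exists_pow_ge hp.one_lt ‖q i‖
    refine ⟨M, ?_⟩
    rw [norm_mul, norm_pow, Padic.norm_p, inv_pow]
    rw [inv_mul_le_iff₀ (by have := hp.pos; positivity), mul_one]
    exact hM
  choose M hM using hM
  set L : ℕ := ∑ i, M i with hL
  have hL2 : ∀ i, ‖(p : ℚ_[p]) ^ L * q i‖ ≤ 1 := by
    intro i
    have h1 : M i ≤ L := Finset.single_le_sum (f := M) (fun _ _ => Nat.zero_le _) (Finset.mem_univ i)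
    obtain ⟨k, hk⟩ := Nat.exists_eq_add_of_le h1
    rw [hk, pow_add, mul_right_comm, norm_mul]
    refine mul_le_one₀ (hM i) (norm_nonneg _) ?_
    rw [norm_pow, Padic.norm_p]
    refine pow_le_one₀ (by positivity) ?_
    exact inv_le_one_of_one_le₀ (by exact_mod_cast hp.one_lt.le)
  let t : ι → ℤ_[p] := fun i => ⟨(p : ℚ_[p]) ^ L * q i, hL2 i⟩
  have ht : ∀ i, ((t i : ℤ_[p]) : ℚ_[p]) = (p : ℚ_[p]) ^ L * q i := fun i => rfl
  have h2 : j (∑ i, t i • b i) = 0 := by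
    rw [map_sum]
    have h3 : ∀ i, j (t i • b i) =
        algebraMap ℚ_[p] ℂ_[p] ((p : ℚ_[p]) ^ L) * (j (b i) * algebraMap ℚ_[p] ℂ_[p] (q i)) := by
      intro i
      rw [Algebra.smul_def, map_mul, hjp, ht, map_mul]
      ring
    rw [Finset.sum_congr rfl fun i _ => h3 i, ← Finset.mul_sum, h, mul_zero]
  have h4 : ∑ i, t i • b i = 0 := hj (by rw [h2, map_zero])
  have h5 := Fintype.linearIndependent_iff.1 b.linearIndependent t h4
  intro i
  have h6 : (p : ℚ_[p]) ^ L * q i = 0 := by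
    rw [← ht, h5 i]
    rfl
  exact (mul_eq_zero.1 h6).resolve_left (pow_ne_zero _ hp0)

/-- coordinates of the values -/
theorem coord {p : ℕ} [Fact p.Prime] {O : Type} [CommRing O] [Algebra ℤ_[p] O] (j : O →+* ℂ_[p])
    (hjp : ∀ x : ℤ_[p], j (algebraMap ℤ_[p] O x) = algebraMap ℚ_[p] ℂ_[p] x)
    {ι : Type} [Fintype ι] (b : Basis ι ℤ_[p] O) {A : Type} [AddCommGroup A] (f : A →+ ℚ_[p])
    {B : ℝ} (hB : ∀ u, ‖f u‖ ≤ B) (y : O ⊗[ℤ] A) :
    ∃ r : ι → ℚ_[p], (∀ i, ‖r i‖ ≤ B) ∧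
      extHom (((algebraMap ℚ_[p] ℂ_[p] : ℚ_[p] →+* ℂ_[p]) : ℚ_[p] →+ ℂ_[p]).comp f) (tm j A y) =
        ∑ i, j (b i) * algebraMap ℚ_[p] ℂ_[p] (r i) := by
  have hB0 : 0 ≤ B := (norm_nonneg _).trans (hB 0)
  induction y using TensorProduct.induction_on with
  | zero =>
    refine ⟨fun _ => 0, fun _ => by rw [norm_zero]; exact hB0, ?_⟩
    rw [map_zero, map_zero]
    simp
  | tmul o u =>
    refine ⟨fun i => (b.repr o i : ℚ_[p]) * f u, fun i => ?_, ?_⟩
    · rw [norm_mul]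
      calc ‖((b.repr o i : ℤ_[p]) : ℚ_[p])‖ * ‖f u‖ ≤ 1 * ‖f u‖ :=
            mul_le_mul_of_nonneg_right (PadicInt.norm_le_one _) (norm_nonneg _)
        _ = ‖f u‖ := one_mul _
        _ ≤ _ := hB u
    · rw [tm_tmul, extHom_tmul]
      conv_lhs => rw [← b.sum_repr o]
      rw [map_sum, Finset.sum_mul]
      refine Finset.sum_congr rfl fun i _ => ?_
      rw [Algebra.smul_def, map_mul, hjp, map_mul]
      simp only [AddMonoidHom.comp_apply, AddMonoidHom.coe_coe]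
      ring
  | add x y hx hy =>
    obtain ⟨r, hr1, hr2⟩ := hx
    obtain ⟨r', hr1', hr2'⟩ := hy
    refine ⟨fun i => r i + r' i, fun i =>
      (IsUltrametricDist.norm_add_le_max _ _).trans (max_le (hr1 i) (hr1' i)), ?_⟩
    rw [map_add, map_add, hr2, hr2', ← Finset.sum_add_distrib]
    exact Finset.sum_congr rfl fun i _ => by rw [map_add, mul_add]

theorem nonempty_hom (F A : Type) [Field F] [Field A] [Algebra F A] [IsAlgClosed A] :
    Nonempty (AlgebraicClosure F →+* A) :=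
  ⟨(IsAlgClosed.lift (R := F) (S := AlgebraicClosure F) (M := A)).toRingHom⟩

theorem t : Pool.Agent.Helper16.SD.Z_TWO := by
  classical
  intro p _ K _ _ Lg E _ T hT O _ _ _ _ _ j hj hjp
  have hp : p.Prime := Fact.out
  have hne : Nonempty (AlgebraicClosure ℚ →+* ℂ_[p]) := nonempty_hom ℚ ℂ_[p]
  have hT' : PlaceClosed (above T : Set (E →+* ℂ_[p])) := fun σ τ hστ => hT _ _ fun x => hστ _
  obtain ⟨n, f, hf1, hf2⟩ := Pool.Agent.Helper94.RP.s_rat p ℂ_[p] hne Lg E (above T) hT'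
  choose! c hc using hf2
  have hb := fun l => bdd (f l)
  choose B hB using hb
  have hB0 : ∀ l, 0 ≤ B l := fun l => (norm_nonneg _).trans (hB l 0)
  have hfin : Finite (E →+* ℂ_[p]) := inferInstance
  have := Fintype.ofFinite (E →+* ℂ_[p])
  obtain ⟨C, hC⟩ := exists_pow_ge hp.one_lt (∑ τ : E →+* ℂ_[p], ∑ l, B l * ‖c τ l‖)
  refine ⟨C, ?_⟩
  intro ι _ b N z y e hz hzy τ hτ i
  have hpos : (0 : ℝ) < p := by exact_mod_cast hp.pos
  have key : ∀ l, ‖f l (e i)‖ ≤ (1 / p : ℝ) ^ N * B l := by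
    intro l
    have h1 := hf1 (tm j _ z) hz l
    obtain ⟨r, hr1, hr2⟩ := coord j hjp b (f l) (hB l) y
    have h2 : ∑ i, j (b i) * algebraMap ℚ_[p] ℂ_[p] (f l (e i) + (p : ℚ_[p]) ^ N * r i) = 0 := by
      rw [hzy, map_add, map_sum, map_add, map_sum, map_nsmul] at h1
      rw [← h1, map_nsmul, hr2, nsmul_eq_mul, Finset.mul_sum, ← Finset.sum_add_distrib]
      refine Finset.sum_congr rfl fun i _ => ?_
      rw [tm_tmul, extHom_tmul, map_add, map_mul, map_pow, map_natCast]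
      simp only [AddMonoidHom.comp_apply, AddMonoidHom.coe_coe, Nat.cast_pow]
      ring
    have h3 := indep j hj hjp b _ h2 i
    have h4 : f l (e i) = -((p : ℚ_[p]) ^ N * r i) := eq_neg_of_add_eq_zero_left h3
    rw [h4, norm_neg, norm_mul, norm_pow, Padic.norm_p, one_div]
    exact mul_le_mul_of_nonneg_left (hr1 i) (by positivity)
  rw [hc τ hτ (e i)]
  have hC0 : ∀ l, B l * ‖c τ l‖ ≤ (p : ℝ) ^ C := by
    intro l
    refine le_trans ?_ hC
    refine le_trans (Finset.single_le_sum (f := fun l => B l * ‖c τ l‖)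
      (fun l _ => mul_nonneg (hB0 l) (norm_nonneg _)) (Finset.mem_univ l)) ?_
    exact Finset.single_le_sum (f := fun τ => ∑ l, B l * ‖c τ l‖)
      (fun τ _ => Finset.sum_nonneg fun l _ => mul_nonneg (hB0 l) (norm_nonneg _))
      (Finset.mem_univ τ)
  refine IsUltrametricDist.norm_sum_le_of_forall_le_of_nonneg (by positivity) fun l _ => ?_
  rw [norm_smul]
  calc ‖f l (e i)‖ * ‖c τ l‖ ≤ ((1 / p : ℝ) ^ N * B l) * ‖c τ l‖ :=
        mul_le_mul_of_nonneg_right (key l) (norm_nonneg _)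
    _ = (B l * ‖c τ l‖) * (1 / p : ℝ) ^ N := by ring
    _ ≤ (p : ℝ) ^ C * (1 / p : ℝ) ^ N := mul_le_mul_of_nonneg_right (hC0 l) (by positivity)

end Pool.Agent.Helper73.SD.Z_TWO
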