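import Pool.Agent.Helper45.SD.Goals

set_option autoImplicit false

/-!
# Packet CX1: `x ≢ 0 mod q^v` in the exact case (MP_9415b6_co, Q2)
-/

open Finset

namespace Pool.Agent.Helper73.SD

open Pool.Agent.Helper45.SD

theorem Icc_eq (k : ℕ) : Icc 1 k = Ioc 0 k := by
  ext j
  simp only [mem_Icc, mem_Ioc]
  omega

/-- block summation -/
theorem blk (s : ℕ) (hs : 0 < s) (g : ℕ → ℤ) (hg : ∀ m, ∑ j ∈ Ioc m (m + s), g j = 0) :
    ∀ (k : ℕ) (w : ℕ → ℤ), ∑ j ∈ Ioc 0 k, w ((k - j) / s) * g j =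
      w (k / s) * ∑ j ∈ Ioc 0 (k % s), g j := by
  intro k
  induction k using Nat.strong_induction_on with
  | _ k ih =>
    intro w
    by_cases hk : k < s
    · rw [Nat.mod_eq_of_lt hk, Nat.div_eq_of_lt hk, mul_sum]
      apply sum_congr rfl
      intro j hj
      rw [Nat.div_eq_of_lt (by have := mem_Ioc.1 hj; omega)]
    · obtain ⟨k', rfl⟩ : ∃ k', k = k' + s := ⟨k - s, by omega⟩
      rw [← sum_Ioc_consecutive _ (Nat.zero_le k') (Nat.le_add_right k' s)]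
      have h1 : ∑ j ∈ Ioc k' (k' + s), w ((k' + s - j) / s) * g j = 0 := by
        have h2 : ∑ j ∈ Ioc k' (k' + s), w ((k' + s - j) / s) * g j =
            ∑ j ∈ Ioc k' (k' + s), w 0 * g j := by
          apply sum_congr rfl
          intro j hj
          rw [Nat.div_eq_of_lt (by have := mem_Ioc.1 hj; omega)]
        rw [h2, ← mul_sum, hg, mul_zero]
      have h3 : ∑ j ∈ Ioc 0 k', w ((k' + s - j) / s) * g j =
          ∑ j ∈ Ioc 0 k', w ((k' - j) / s + 1) * g j := by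
        apply sum_congr rfl
        intro j hj
        have h4 : k' + s - j = (k' - j) + s := by have := mem_Ioc.1 hj; omega
        rw [h4, Nat.add_div_right _ hs]
      rw [h1, h3, add_zero, Nat.add_div_right _ hs, Nat.add_mod_right]
      exact ih k' (by omega) (fun t => w (t + 1))

theorem cnt_block (Q c θ m : ℕ) (hQ : 0 < Q) :
    ((Ioc m (m + Q * c)).filter (fun j => j ≡ θ [MOD Q])).card = c := by
  have h1 : Ioc m (m + Q * c) = Ico (m + 1) (m + 1 + Q * c) := by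
    ext j; simp only [mem_Ioc, mem_Ico]; omega
  have hper : Function.Periodic (fun j => j ≡ θ [MOD Q]) (Q * c) := by
    intro j
    simp only [eq_iff_iff]
    unfold Nat.ModEq
    rw [Nat.add_mul_mod_self_left]
  rw [h1, Nat.filter_Ico_card_eq_of_periodic _ _ _ hper, Nat.count_modEq_card _ hQ]
  simp [hQ.ne']

theorem cnt_init (Q c r0 θ : ℕ) (hr : r0 + 1 < Q) (hθ : 0 < θ) (hθQ : θ < Q) :
    ((Ioc 0 (r0 + Q * c)).filter (fun j => j ≡ θ [MOD Q])).card =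
      c + if θ ≤ r0 then 1 else 0 := by
  have hQ : 0 < Q := by omega
  have h1 : (Ioc 0 (r0 + Q * c)).filter (fun j => j ≡ θ [MOD Q]) =
      (range (r0 + 1 + Q * c)).filter (fun j => j ≡ θ [MOD Q]) := by
    ext j
    simp only [mem_filter, mem_Ioc, mem_range]
    constructor
    · rintro ⟨h2, h3⟩
      exact ⟨by omega, h3⟩
    · rintro ⟨h2, h3⟩
      refine ⟨⟨?_, by omega⟩, h3⟩
      by_contra hj
      have hj0 : j = 0 := by omega
      rw [hj0] at h3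
      unfold Nat.ModEq at h3
      rw [Nat.zero_mod, Nat.mod_eq_of_lt hθQ] at h3
      omega
  rw [h1, ← Nat.count_eq_card_filter_range, Nat.count_modEq_card _ hQ,
    Nat.add_mul_div_left _ _ hQ, Nat.add_mul_mod_self_left, Nat.div_eq_of_lt hr,
    Nat.mod_eq_of_lt hr, Nat.mod_eq_of_lt hθQ, zero_add]
  congr 1
  apply if_congr _ rfl rfl
  omega

/-- the geometric sum -/
def Gs (q m : ℕ) : ℕ := ∑ i ∈ range m, q ^ i

theorem Gs_mul (q m : ℕ) (hq : 1 ≤ q) : (q - 1) * Gs q m + 1 = q ^ m := by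
  induction m with
  | zero => simp [Gs]
  | succ m ih =>
    have h1 : Gs q (m + 1) = Gs q m + q ^ m := by unfold Gs; rw [sum_range_succ]
    obtain ⟨c, rfl⟩ : ∃ c, q = c + 1 := ⟨q - 1, by omega⟩
    rw [h1, Nat.add_sub_cancel] at *
    rw [mul_add, pow_succ]
    nlinarith

theorem Gs_add (q a b : ℕ) : Gs q (b + a) = Gs q b + q ^ b * Gs q a := by
  unfold Gs
  rw [sum_range_add, mul_sum]
  congr 1
  apply sum_congr rfl
  intro i _
  rw [pow_add]

theorem Gs_mod (q m : ℕ) (hm : 1 ≤ m) : ∃ c, Gs q m = 1 + q * c := by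
  obtain ⟨m', rfl⟩ : ∃ m', m = 1 + m' := ⟨m - 1, by omega⟩
  refine ⟨Gs q m', ?_⟩
  rw [Gs_add]
  simp [Gs]

/-- the element `Y` with `θ Y ≡ X` modulo `s` and `Y ≡ 0` modulo `N` -/
theorem exists_Y {s N θ : ℕ} (X : ℕ) (hs : 1 < s) (hsN : Nat.Coprime s N)
    (hθ : Nat.Coprime θ s) : ∃ Y : ℕ, (s : ℤ) ∣ θ * Y - X ∧ (N : ℤ) ∣ Y := by
  obtain ⟨t, ht⟩ := Nat.exists_mul_mod_eq_one_of_coprime hθ hs
  obtain ⟨Y, hY1, hY2⟩ := Nat.chineseRemainder hsN (X * t) 0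
  refine ⟨Y, ?_, ?_⟩
  · have h1 : θ * Y ≡ θ * (X * t) [MOD s] := hY1.mul_left θ
    have h2 : θ * t ≡ 1 [MOD s] := by
      unfold Nat.ModEq
      rw [ht.2, Nat.mod_eq_of_lt hs]
    have h3 : θ * (X * t) ≡ X [MOD s] := by
      have := h2.mul_left X
      rw [mul_one] at this
      rw [show θ * (X * t) = X * (θ * t) by ring]
      exact this
    have h4 := (h1.trans h3).symm
    rw [Nat.modEq_iff_dvd] at h4
    push_cast at h4
    exact h4
  · have := hY2.symm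
    rw [Nat.modEq_iff_dvd] at this
    simpa using this

theorem core1 {q v a b θ X X' Y : ℕ} (hq : q.Prime) (hv : v = a + b) (hX : X = q ^ a * X')
    (hX' : ¬ q ∣ X') (hθ : ¬ q ∣ θ) (hY : ((q ^ v : ℕ) : ℤ) ∣ θ * Y - X) (j : ℕ) :
    ((q ^ v : ℕ) : ℤ) ∣ (X : ℤ) - j * Y ↔ ((q ^ b : ℕ) : ℤ) ∣ (θ : ℤ) - j := by
  have hcθ : IsCoprime ((q ^ v : ℕ) : ℤ) (θ : ℤ) :=
    Nat.isCoprime_iff_coprime.2 (Nat.Coprime.pow_left v ((Nat.Prime.coprime_iff_not_dvd hq).2 hθ))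
  have hcX : IsCoprime ((q ^ b : ℕ) : ℤ) (X' : ℤ) :=
    Nat.isCoprime_iff_coprime.2 (Nat.Coprime.pow_left b ((Nat.Prime.coprime_iff_not_dvd hq).2 hX'))
  have e1 : ((q ^ v : ℕ) : ℤ) ∣ (X : ℤ) - j * Y ↔ ((q ^ v : ℕ) : ℤ) ∣ θ * ((X : ℤ) - j * Y) :=
    ⟨fun h => Dvd.dvd.mul_left h _, fun h => hcθ.dvd_of_dvd_mul_left h⟩
  have e2 : θ * ((X : ℤ) - j * Y) = ((θ : ℤ) - j) * X - j * (θ * Y - X) := by ring
  have e3 : ((q ^ v : ℕ) : ℤ) ∣ θ * ((X : ℤ) - j * Y) ↔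
      ((q ^ v : ℕ) : ℤ) ∣ ((θ : ℤ) - j) * X := by
    rw [e2]
    exact dvd_sub_left (Dvd.dvd.mul_left hY _)
  have hqa : ((q ^ a : ℕ) : ℤ) ≠ 0 := by
    have := pow_ne_zero a hq.ne_zero
    exact_mod_cast this
  have e4 : ((q ^ v : ℕ) : ℤ) ∣ ((θ : ℤ) - j) * X ↔
      ((q ^ b : ℕ) : ℤ) ∣ ((θ : ℤ) - j) * X' := by
    rw [hv, hX, pow_add, Nat.cast_mul, Nat.cast_mul,
      show ((θ : ℤ) - j) * (((q ^ a : ℕ) : ℤ) * X') = ((q ^ a : ℕ) : ℤ) * (((θ : ℤ) - j) * X') by ring]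
    exact mul_dvd_mul_iff_left hqa
  rw [e1, e3, e4]
  exact ⟨fun h => hcX.dvd_of_dvd_mul_right h, fun h => Dvd.dvd.mul_right h _⟩

/-- the number of `t`-subsets with the right sum modulo `N` -/
def bt (s N X t : ℕ) : ℕ :=
  (((Ico 1 N).powersetCard t).filter
    (fun L => ((s * ∑ i ∈ L, i : ℕ) : ZMod N) = (X : ZMod N))).card

theorem Bp_eq {q v a b N θ X X' Y n : ℕ} [NeZero n] (hq : q.Prime) (hv : v = a + b)
    (hX : X = q ^ a * X') (hX' : ¬ q ∣ X') (hθ : ¬ q ∣ θ)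
    (hY : ((q ^ v : ℕ) : ℤ) ∣ θ * Y - X) (hYN : (N : ℤ) ∣ Y) (hn : n = q ^ v * N)
    (hqN : ¬ q ∣ N) (t j : ℕ) :
    Bp n (q ^ v) N t ((X : ZMod n) - j * (Y : ZMod n)) =
      if j ≡ θ [MOD q ^ b] then bt (q ^ v) N X t else 0 := by
  have hcop : IsCoprime ((q ^ v : ℕ) : ℤ) (N : ℤ) :=
    Nat.isCoprime_iff_coprime.2 (Nat.Coprime.pow_left v ((Nat.Prime.coprime_iff_not_dvd hq).2 hqN))
  have key : ∀ S : ℕ, (((q ^ v * S : ℕ) : ZMod n) = (X : ZMod n) - j * (Y : ZMod n)) ↔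
      (j ≡ θ [MOD q ^ b] ∧ ((q ^ v * S : ℕ) : ZMod N) = (X : ZMod N)) := by
    intro S
    have e1 : (((q ^ v * S : ℕ) : ZMod n) = (X : ZMod n) - j * (Y : ZMod n)) ↔
        ((n : ℤ) ∣ ((X : ℤ) - j * Y) - (q ^ v * S : ℕ)) := by
      rw [← ZMod.intCast_eq_intCast_iff_dvd_sub]
      push_cast
      rfl
    have e2 : (((q ^ v * S : ℕ) : ZMod N) = (X : ZMod N)) ↔
        ((N : ℤ) ∣ (X : ℤ) - (q ^ v * S : ℕ)) := by
      rw [← ZMod.intCast_eq_intCast_iff_dvd_sub]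
      push_cast
      rfl
    have e3 : ((n : ℤ) ∣ ((X : ℤ) - j * Y) - (q ^ v * S : ℕ)) ↔
        (((q ^ v : ℕ) : ℤ) ∣ ((X : ℤ) - j * Y) - (q ^ v * S : ℕ)) ∧
        ((N : ℤ) ∣ ((X : ℤ) - j * Y) - (q ^ v * S : ℕ)) := by
      rw [hn, Nat.cast_mul]
      constructor
      · intro h
        exact ⟨(Dvd.intro _ rfl).trans h, (Dvd.intro_left _ rfl).trans h⟩
      · rintro ⟨h1, h2⟩
        exact hcop.mul_dvd h1 h2
    have e4 : (((q ^ v : ℕ) : ℤ) ∣ ((X : ℤ) - j * Y) - (q ^ v * S : ℕ)) ↔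
        (((q ^ v : ℕ) : ℤ) ∣ ((X : ℤ) - j * Y)) :=
      dvd_sub_left (by push_cast; exact Dvd.intro _ rfl)
    have e5 : ((N : ℤ) ∣ ((X : ℤ) - j * Y) - (q ^ v * S : ℕ)) ↔
        ((N : ℤ) ∣ (X : ℤ) - (q ^ v * S : ℕ)) := by
      rw [show ((X : ℤ) - j * Y) - (q ^ v * S : ℕ) = ((X : ℤ) - (q ^ v * S : ℕ)) - j * Y by ring]
      exact dvd_sub_left (Dvd.dvd.mul_left hYN _)
    rw [e1, e3, e4, e5, e2, core1 hq hv hX hX' hθ hY, Nat.modEq_iff_dvd]
  unfold Bp bt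
  split_ifs with hj
  · congr 1
    apply filter_congr
    intro L _
    rw [key]
    exact ⟨fun h => h.2, fun h => ⟨hj, h⟩⟩
  · rw [card_eq_zero, filter_eq_empty_iff]
    intro L _
    rw [key]
    exact fun h => hj h.1

theorem cx1 (hC : G_CMP) : G_CX1 := by
  intro q v N hq hv hqN hN n _ hn hodd k x hk1 hk2 hex hsx hL hDes
  set X := x.val with hXdef
  set s := q ^ v with hs
  have hqn : q ∣ n := by
    rw [hn]
    exact Dvd.dvd.mul_right (dvd_pow_self q (by omega)) _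
  have hq3 : 3 ≤ q := by
    rcases hq.eq_two_or_odd' with h2 | ho
    · exfalso
      rw [h2] at hqn
      exact (Nat.not_even_iff_odd.2 hodd) (even_iff_two_dvd.2 hqn)
    · have h2 := hq.two_le
      rcases Nat.lt_or_ge q 3 with h3 | h3
      · have : q = 2 := by omega
        rw [this] at ho
        exact absurd ho (by decide)
      · exact h3
  have hs1 : 1 < s := Nat.one_lt_pow (by omega) (by omega)
  have hs0 : 0 < s := by omega
  -- the number h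
  obtain ⟨h, hh⟩ := hex q hq hqn
  have hn3 : 3 ≤ n := by omega
  have hh1 : 1 ≤ h := by
    rcases Nat.eq_zero_or_pos h with h0 | h0
    · rw [h0, mul_zero] at hh
      rcases Nat.mul_eq_zero.1 hh with h1 | h1 <;> omega
    · exact h0
  have hh2 : 2 * h ≤ q - 1 := by
    have e1 : (n - 1) * (2 * h) ≤ (n - 1) * (q - 1) := by
      calc (n - 1) * (2 * h) = 2 * ((n - 1) * h) := by ring
        _ = (2 * k) * (q - 1) := by rw [← hh]; ring
        _ ≤ (n - 1) * (q - 1) := Nat.mul_le_mul_right _ (by omega)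
    exact Nat.le_of_mul_le_mul_left e1 (by omega)
  -- the valuation of x
  have hX0 : X ≠ 0 := by
    intro h0
    apply hsx
    rw [h0]
    exact dvd_zero _
  obtain ⟨a, X', hX', hXa⟩ := Nat.exists_eq_pow_mul_and_not_dvd hX0 q hq.ne_one
  have hav : a < v := by
    by_contra hcon
    apply hsx
    rw [hXa]
    exact Dvd.dvd.mul_right (pow_dvd_pow q (by omega)) _
  obtain ⟨b, hb⟩ : ∃ b, v = a + b := ⟨v - a, by omega⟩
  have hb1 : 1 ≤ b := by omega
  set Q := q ^ b with hQ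
  have hsQ : s = Q * q ^ a := by rw [hs, hQ, hb, pow_add, mul_comm]
  have hQ0 : 0 < Q := pow_pos hq.pos _
  -- r0 and r
  set r0 := h * Gs q b with hr0
  have hGb := Gs_mul q b (by omega)
  have hGv := Gs_mul q v (by omega)
  have h2r0 : 2 * r0 + 1 ≤ Q := by
    have e1 : (q - 1) * (2 * r0) ≤ (q - 1) * (Q - 1) := by
      calc (q - 1) * (2 * r0) = (2 * h) * ((q - 1) * Gs q b) := by rw [hr0]; ring
        _ ≤ (q - 1) * ((q - 1) * Gs q b) := Nat.mul_le_mul_right _ hh2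
        _ = (q - 1) * (Q - 1) := by rw [hQ, ← hGb]; simp
    have := Nat.le_of_mul_le_mul_left e1 (by omega)
    omega
  have hr01 : 1 ≤ r0 := by
    obtain ⟨c, hc⟩ := Gs_mod q b hb1
    rw [hr0, hc]
    nlinarith
  have hsplit : h * Gs q v = r0 + Q * (h * Gs q a) := by
    rw [hb, add_comm a b, Gs_add, hr0, hQ]
    ring
  have hrs : h * Gs q v < s := by
    have e1 : (q - 1) * (2 * (h * Gs q v)) ≤ (q - 1) * (s - 1) := by
      calc (q - 1) * (2 * (h * Gs q v)) = (2 * h) * ((q - 1) * Gs q v) := by ring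
        _ ≤ (q - 1) * ((q - 1) * Gs q v) := Nat.mul_le_mul_right _ hh2
        _ = (q - 1) * (s - 1) := by rw [hs, ← hGv]; simp
    have := Nat.le_of_mul_le_mul_left e1 (by omega)
    omega
  have hkr : k % s = h * Gs q v := by
    have e1 : ((s : ℕ) : ℤ) ∣ ((q : ℤ) - 1) * ((k : ℤ) - (h * Gs q v : ℕ)) := by
      have f1 : ((n : ℤ) - 1) * h = k * ((q : ℤ) - 1) := by
        have := congrArg (fun z : ℕ => (z : ℤ)) hh
        push_cast [Nat.cast_sub (by omega : 1 ≤ n), Nat.cast_sub (by omega : 1 ≤ q)] at this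
        linarith
      have f2 : ((q : ℤ) - 1) * (Gs q v : ℤ) + 1 = (s : ℤ) := by
        have := congrArg (fun z : ℕ => (z : ℤ)) hGv
        push_cast [Nat.cast_sub (by omega : 1 ≤ q)] at this
        rw [hs]
        push_cast
        exact this
      have f3 : (n : ℤ) = s * N := by rw [hn]; push_cast; rfl
      refine ⟨(N : ℤ) * h - h, ?_⟩
      push_cast
      have : ((q : ℤ) - 1) * ((k : ℤ) - h * (Gs q v : ℤ)) = k * ((q : ℤ) - 1) -
        h * (((q : ℤ) - 1) * (Gs q v : ℤ)) := by ring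
      rw [this, ← f1, f3]
      have f4 : ((q : ℤ) - 1) * (Gs q v : ℤ) = s - 1 := by linarith
      rw [f4]
      ring
    have e2 : IsCoprime ((s : ℕ) : ℤ) ((q : ℤ) - 1) := by
      have f1 : IsCoprime (q : ℤ) ((q : ℤ) - 1) := ⟨1, -1, by ring⟩
      rw [hs]
      push_cast
      exact f1.pow_left
    have e3 := e2.dvd_of_dvd_mul_left e1
    have e4 : h * Gs q v ≡ k [MOD s] := by
      rw [Nat.modEq_iff_dvd]
      exact e3
    have e5 : (h * Gs q v) % s = k % s := e4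
    rw [← e5, Nat.mod_eq_of_lt hrs]
  -- theta
  obtain ⟨θ, hθ⟩ : ∃ θ, θ = r0 := ⟨_, rfl⟩
  obtain ⟨θ', hθ'⟩ : ∃ θ', θ' = r0 + q ^ (b - 1) := ⟨_, rfl⟩
  have hpow : q ^ (b - 1) * q = Q := by
    rw [hQ, ← pow_succ]
    congr 1
    omega
  have hpow1 : 1 ≤ q ^ (b - 1) := Nat.one_le_pow _ _ hq.pos
  have hqθ : ¬ q ∣ θ := by
    intro hd
    rw [hθ, hr0] at hd
    rcases (Nat.Prime.dvd_mul hq).1 hd with h1 | h1
    · have := Nat.le_of_dvd (by omega) h1
      omega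
    · obtain ⟨c, hc⟩ := Gs_mod q b hb1
      rw [hc] at h1
      have h2 : q ∣ 1 := (Nat.dvd_add_left (Dvd.intro _ rfl)).1 h1
      have := Nat.le_of_dvd (by omega) h2
      omega
  have hqθ' : ¬ q ∣ θ' := by
    intro hd
    rcases Nat.lt_or_ge b 2 with hb2 | hb2
    · have hb' : b = 1 := by omega
      have h1 : θ' = h + 1 := by
        rw [hθ', hr0, hb']
        simp [Gs]
      rw [h1] at hd
      have := Nat.le_of_dvd (by omega) hd
      omega
    · apply hqθ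
      have h1 : q ∣ q ^ (b - 1) := dvd_pow_self q (by omega)
      rw [hθ'] at hd
      rw [hθ]
      exact (Nat.dvd_add_left h1).1 hd
  have hθ'Q : θ' < Q := by
    have h1 : θ' ≤ Q := by
      have : 2 * θ' ≤ 2 * Q := by
        have h3 : 3 * q ^ (b - 1) ≤ Q := by
          rw [← hpow, mul_comm]
          exact Nat.mul_le_mul_left _ hq3
        omega
      omega
    rcases Nat.lt_or_ge θ' Q with h2 | h2
    · exact h2
    · exfalso
      apply hqθ'
      have h3 : θ' = Q := le_antisymm h1 h2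
      rw [h3, hQ]
      exact dvd_pow_self q (by omega)
  have hcopN : Nat.Coprime s N := Nat.Coprime.pow_left v ((Nat.Prime.coprime_iff_not_dvd hq).2 hqN)
  obtain ⟨Y, hY, hYN⟩ := exists_Y X hs1 hcopN
    (Nat.Coprime.pow_right v ((Nat.Prime.coprime_iff_not_dvd hq).2 hqθ).symm)
  obtain ⟨Y', hY', hYN'⟩ := exists_Y X hs1 hcopN
    (Nat.Coprime.pow_right v ((Nat.Prime.coprime_iff_not_dvd hq).2 hqθ').symm)
  have hxX : ((X : ℕ) : ZMod n) = x := ZMod.natCast_zmod_val x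
  have hne : ∀ (ϑ Z : ℕ), (s : ℤ) ∣ ϑ * Z - X → ((Z : ℕ) : ZMod n) ≠ 0 := by
    intro ϑ Z hZ h0
    rw [ZMod.natCast_eq_zero_iff] at h0
    apply hsx
    have h1 : (s : ℤ) ∣ Z := by
      have : s ∣ Z := (Dvd.intro _ hn.symm).trans h0
      exact_mod_cast this
    have h2 : (s : ℤ) ∣ X := by
      have h3 := dvd_sub (Dvd.dvd.mul_left h1 (ϑ : ℤ)) hZ
      rw [show (ϑ : ℤ) * Z - (ϑ * Z - X) = X by ring] at h3
      exact h3
    exact_mod_cast h2
  have hdiff : ∃ i : ZMod n, ((Y' : ℕ) : ZMod n) = ((Y : ℕ) : ZMod n) +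
      i * ((q ^ (v - 1) * N : ℕ) : ZMod n) := by
    have h1 : ((q ^ (v - 1) : ℕ) : ℤ) ∣ (Y' : ℤ) - Y := by
      have hc1 : IsCoprime ((q ^ (v - 1) : ℕ) : ℤ) ((θ : ℤ) * θ') := by
        apply IsCoprime.mul_right
        · exact Nat.isCoprime_iff_coprime.2
            (Nat.Coprime.pow_left _ ((Nat.Prime.coprime_iff_not_dvd hq).2 hqθ))
        · exact Nat.isCoprime_iff_coprime.2
            (Nat.Coprime.pow_left _ ((Nat.Prime.coprime_iff_not_dvd hq).2 hqθ'))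
      apply hc1.dvd_of_dvd_mul_left
      have hds : ((q ^ (v - 1) : ℕ) : ℤ) ∣ (s : ℤ) := by
        have : q ^ (v - 1) ∣ s := pow_dvd_pow q (by omega)
        exact_mod_cast this
      have h2 : ((q ^ (v - 1) : ℕ) : ℤ) ∣ (θ : ℤ) * X - θ' * X := by
        have h3 : (θ : ℤ) * X - θ' * X = -(((q ^ (v - 1) : ℕ) : ℤ) * X') := by
          rw [hθ', hθ, hXa, show v - 1 = (b - 1) + a by omega, pow_add]
          push_cast
          ring
        rw [h3]
        exact (dvd_neg).2 (Dvd.intro _ rfl)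
      have h4 : (θ : ℤ) * θ' * ((Y' : ℤ) - Y) = θ * (θ' * Y' - X) - θ' * (θ * Y - X) +
          (θ * X - θ' * X) := by ring
      rw [h4]
      exact dvd_add (dvd_sub (Dvd.dvd.mul_left (hds.trans hY') _)
        (Dvd.dvd.mul_left (hds.trans hY) _)) h2
    have h2 : (N : ℤ) ∣ (Y' : ℤ) - Y := dvd_sub hYN' hYN
    have hc2 : IsCoprime ((q ^ (v - 1) : ℕ) : ℤ) (N : ℤ) :=
      Nat.isCoprime_iff_coprime.2 (Nat.Coprime.pow_left _ ((Nat.Prime.coprime_iff_not_dvd hq).2 hqN))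
    obtain ⟨i, hi⟩ := hc2.mul_dvd h1 h2
    refine ⟨(i : ZMod n), ?_⟩
    have h3 : (Y' : ℤ) = Y + i * ((q ^ (v - 1) : ℕ) * N) := by linarith
    have h4 := congrArg (fun z : ℤ => (z : ZMod n)) h3
    push_cast at h4 ⊢
    exact h4
  have hcmp := hC q v N hq hv hqN hN n hn k x (Y : ZMod n) (Y' : ZMod n) (hne θ Y hY) (hne θ' Y' hY')
    hdiff
  obtain ⟨r, hr⟩ := hDes
  rw [hr _ (hne θ Y hY), hr _ (hne θ' Y' hY'), sub_self] at hcmp
  -- the sum
  let g : ℕ → ℤ := fun j => (if j ≡ θ [MOD Q] then 1 else 0) - (if j ≡ θ' [MOD Q] then 1 else 0)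
  let w : ℕ → ℤ := fun t => (-1) ^ t * (bt s N X t : ℤ)
  have hsumeq : ∑ j ∈ Icc 1 k,
      (-1 : ℤ) ^ ((k - j) / s) * ((Bp n s N ((k - j) / s) (x - j * (Y : ZMod n)) : ℤ) -
      (Bp n s N ((k - j) / s) (x - j * (Y' : ZMod n)) : ℤ)) =
      ∑ j ∈ Ioc 0 k, w ((k - j) / s) * g j := by
    rw [Icc_eq]
    apply sum_congr rfl
    intro j _
    rw [← hxX, Bp_eq hq hb hXa hX' hqθ hY hYN hn hqN, Bp_eq hq hb hXa hX' hqθ' hY' hYN' hn hqN]
    simp only [w, g]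
    split_ifs <;> push_cast <;> ring
  rw [hsumeq, blk s hs0 g (by
    intro m
    simp only [g, sum_sub_distrib, sum_boole]
    rw [hsQ, cnt_block Q _ θ m hQ0, cnt_block Q _ θ' m hQ0, sub_self]) k w, hkr, hsplit] at hcmp
  have hcount : ∑ j ∈ Ioc 0 (r0 + Q * (h * Gs q a)), g j = 1 := by
    simp only [g, sum_sub_distrib, sum_boole]
    rw [cnt_init Q _ r0 θ (by omega) (by omega) (by omega),
      cnt_init Q _ r0 θ' (by omega) (by omega) hθ'Q, if_pos (by omega), if_neg (by omega)]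
    push_cast
    ring
  rw [hcount, mul_one] at hcmp
  have hbt : 0 < bt s N X (k / s) := by
    obtain ⟨L, hL1, hL2⟩ := hL
    exact card_pos.2 ⟨L, mem_filter.2 ⟨hL1, hL2⟩⟩
  have hw : w (k / s) ≠ 0 := by
    simp only [w]
    apply mul_ne_zero
    · exact pow_ne_zero _ (by norm_num)
    · exact_mod_cast hbt.ne'
  have hfin := mul_ne_zero (pow_ne_zero (k - 1) (by norm_num : (-1 : ℤ) ≠ 0)) hw
  exact hfin hcmp.symm

end Pool.Agent.Helper73.SD
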