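import Pool.Agent.Helper45.SD.Goals

set_option autoImplicit false

/-!
# Packet JP: the averaged equations for `n = p M`, `M` prime (MP_9415b6_co, Q2)
-/

open Finset

namespace Pool.Agent.Helper73.SD

open Pool.Agent.Helper45.SD

namespace JPaux

theorem Icc_eq' (k : ℕ) : Icc 1 k = Ioc 0 k := by
  ext j
  simp only [mem_Icc, mem_Ioc]
  omega

theorem card_mult (k p : ℕ) : ((Icc 1 k).filter (fun j => p ∣ j)).card = k / p := by
  rw [Icc_eq', Nat.Ioc_filter_dvd_card_eq_div]

theorem Ph_sq {p : ℕ} (hp : p.Prime) (k : ℕ) : (Ph (p * p) k : ℤ) = k - (k / p : ℕ) := by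
  have h1 : Ph (p * p) k + k / p = k := by
    unfold Ph
    rw [← card_mult k p]
    have h2 : (Icc 1 k).filter (fun j => p ∣ j) =
        (Icc 1 k).filter (fun j => ¬ Nat.Coprime j (p * p)) := by
      apply filter_congr
      intro j _
      rw [Nat.coprime_mul_iff_right, and_self, Nat.coprime_comm,
        Nat.Prime.coprime_iff_not_dvd hp, not_not]
    rw [h2, card_filter_add_card_filter_not, Nat.card_Icc]
    simp
  omega

theorem Ph_mul {p M : ℕ} (hp : p.Prime) (hM : M.Prime) (hpM : p ≠ M) {k : ℕ} (hk : k < p * M) :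
    (Ph (p * M) k : ℤ) = k - (k / p : ℕ) - (k / M : ℕ) := by
  have h1 : Ph (p * M) k + (k / p + k / M) = k := by
    unfold Ph
    rw [← card_mult k p, ← card_mult k M, ← card_union_of_disjoint, ← filter_or]
    · have h2 : (Icc 1 k).filter (fun j => p ∣ j ∨ M ∣ j) =
          (Icc 1 k).filter (fun j => ¬ Nat.Coprime j (p * M)) := by
        apply filter_congr
        intro j _
        rw [Nat.coprime_mul_iff_right, Nat.coprime_comm, Nat.Prime.coprime_iff_not_dvd hp,
          Nat.coprime_comm, Nat.Prime.coprime_iff_not_dvd hM]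
        tauto
      rw [h2, card_filter_add_card_filter_not, Nat.card_Icc]
      simp
    · rw [disjoint_filter]
      intro j hj h3 h4
      have h5 : p * M ∣ j := Nat.Coprime.mul_dvd_of_dvd_of_dvd ((Nat.coprime_primes hp hM).2 hpM) h3 h4
      have h6 := mem_Icc.1 hj
      have := Nat.le_of_dvd (by omega) h5
      omega
  omega

theorem mono3 {M F : ℕ} (h3 : 3 ≤ F) (hF : 2 * F + 1 ≤ M) :
    (M - 1).choose 3 ≤ (M - 1).choose F := by
  induction F, h3 using Nat.le_induction with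
  | base => exact le_rfl
  | succ n hn ih =>
    exact (ih (by omega)).trans (Nat.choose_le_succ_of_lt_half_left (by omega))

theorem ch2 {M : ℕ} (hM : 3 ≤ M) : 2 * ((M - 1).choose 2 : ℤ) = ((M : ℤ) - 1) * (M - 2) := by
  have h1 : (M - 1).choose 2 * 2 = (M - 1) * (M - 1 - 1) := by
    rw [Nat.choose_two_right]
    exact Nat.div_mul_cancel (Nat.even_mul_pred_self (M - 1)).two_dvd
  have h2 : (((M - 1).choose 2 * 2 : ℕ) : ℤ) = (((M - 1) * (M - 1 - 1) : ℕ) : ℤ) := by
    rw [h1]
  rw [Nat.cast_mul, Nat.cast_mul, Nat.cast_sub (by omega : 1 ≤ M - 1),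
    Nat.cast_sub (by omega : 1 ≤ M)] at h2
  push_cast at h2
  linarith

theorem ch3 {M : ℕ} (hM : 4 ≤ M) :
    6 * ((M - 1).choose 3 : ℤ) = ((M : ℤ) - 1) * (M - 2) * (M - 3) := by
  have h1 : (M - 1).choose 3 * 3 = (M - 1).choose 2 * (M - 1 - 2) :=
    Nat.choose_succ_right_eq (M - 1) 2
  have h2 : (((M - 1).choose 3 * 3 : ℕ) : ℤ) = (((M - 1).choose 2 * (M - 1 - 2) : ℕ) : ℤ) := by
    rw [h1]
  have h3 := ch2 (by omega : 3 ≤ M)
  rw [Nat.cast_mul, Nat.cast_mul, Nat.cast_sub (by omega : 2 ≤ M - 1),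
    Nat.cast_sub (by omega : 1 ≤ M)] at h2
  push_cast at h2
  have h4 : 6 * ((M - 1).choose 3 : ℤ) = (2 * ((M - 1).choose 2 : ℤ)) * ((M : ℤ) - 1 - 2) := by
    linarith
  rw [h4, h3]
  ring

end JPaux

open JPaux in
theorem jp (hS : G_SPL) (hD : G_DV) (hR : G_R1) : G_JP := by
  intro p M k g hp hM hp3 hpM hpk hk2 hg hor hAV
  have hM3 : 3 ≤ M := hp3.trans hpM
  have hnpos : 0 < p * M := Nat.mul_pos hp.pos hM.pos
  have hkn : k < p * M := by omega
  have hgpos : 0 < g := Nat.pos_of_dvd_of_pos hg hnpos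
  obtain ⟨hR1, hR2, -⟩ := hR p g (p * M) hp hgpos hnpos (Dvd.intro _ rfl)
  -- the averaged equation
  have e0 := hAV p (Dvd.intro _ rfl) hp.one_lt
  rw [hS p M k g hp hM.pos, Nat.Prime.divisors hM, sum_pair hM.one_lt.ne, mul_one, Nat.div_one,
    Nat.div_one, Nat.div_self hM.pos] at e0
  have hG : k / M < p := Nat.div_lt_of_lt_mul (by rw [mul_comm]; exact hkn)
  rw [(hD p 1 (k / M) hp.two_le).2 hG, Nat.totient_prime hp] at e0
  set D1 := D p M k with hD1
  set G := k / M with hGdef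
  have hp1 : ((p - 1 : ℕ) : ℤ) = (p : ℤ) - 1 := by
    rw [Nat.cast_sub hp.one_lt.le]; simp
  rw [hp1] at e0
  have hφ : (0 : ℤ) < ((p * M).totient : ℤ) := by exact_mod_cast Nat.totient_pos.2 hnpos
  by_cases hrn : rg g (p * M) = 0
  · rw [hrn] at e0
    simp only [zero_mul, add_zero, mul_zero] at e0
    rcases mul_eq_zero.1 e0 with h1 | h1
    · omega
    · rcases mul_eq_zero.1 h1 with h2 | h2
      · exact absurd h2 hR2
      · exact h2
  have hMk : M ≤ k := hor.resolve_right hrn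
  have hpz : (3 : ℤ) ≤ p := by exact_mod_cast hp3
  -- (2)
  have e1 : ((p * M).totient : ℤ) * (rg g p * D1) = rg g (p * M) *
      (((p : ℤ) - 1) * (Ph (p * M) k : ℤ) - ((p * M).totient : ℤ) * (G : ℤ)) := by
    linarith
  have e2 : ((p : ℤ) - 1) * |D1| ≤
      |((p : ℤ) - 1) * (Ph (p * M) k : ℤ) - ((p * M).totient : ℤ) * (G : ℤ)| := by
    have h1 := congrArg abs e1
    rw [abs_mul, abs_mul, abs_mul, abs_of_pos hφ] at h1
    have h2 : 0 < |rg g p| := abs_pos.2 hR2
    set E := |((p : ℤ) - 1) * (Ph (p * M) k : ℤ) - ((p * M).totient : ℤ) * (G : ℤ)| with hE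
    have hE0 : 0 ≤ E := abs_nonneg _
    have h3 : (((p * M).totient : ℤ) * |rg g p|) * (((p : ℤ) - 1) * |D1|) ≤
        (((p * M).totient : ℤ) * |rg g p|) * E := by
      calc (((p * M).totient : ℤ) * |rg g p|) * (((p : ℤ) - 1) * |D1|)
          = ((p : ℤ) - 1) * (((p * M).totient : ℤ) * (|rg g p| * |D1|)) := by ring
        _ = (((p : ℤ) - 1) * |rg g (p * M)|) * E := by rw [h1]; ring
        _ ≤ (((p * M).totient : ℤ) * |rg g p|) * E := mul_le_mul_of_nonneg_right hR1 hE0
    exact le_of_mul_le_mul_left h3 (mul_pos hφ h2)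
  -- (3)
  have e3 : |D1| ≤ |((k % M : ℕ) : ℤ) - (k / p : ℕ)| := by
    have hdm : ((k % M : ℕ) : ℤ) = k - M * (G : ℤ) := by
      have := Nat.div_add_mod k M
      rw [hGdef]
      have h2 : (M : ℤ) * ((k / M : ℕ) : ℤ) + ((k % M : ℕ) : ℤ) = k := by exact_mod_cast this
      linarith
    have key : ((p : ℤ) - 1) * (Ph (p * M) k : ℤ) - ((p * M).totient : ℤ) * (G : ℤ) =
        ((p : ℤ) - 1) * (((k % M : ℕ) : ℤ) - (k / p : ℕ)) := by
      by_cases hpM' : p = M
      · subst hpM'
        rw [Ph_sq hp, ← pow_two, Nat.totient_prime_pow hp (by norm_num), hdm]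
        push_cast
        rw [hp1, hGdef]
        ring
      · rw [Ph_mul hp hM hpM' hkn, Nat.totient_mul ((Nat.coprime_primes hp hM).2 hpM'),
          Nat.totient_prime hp, Nat.totient_prime hM, hdm, ← hGdef, Nat.cast_mul, hp1,
          Nat.cast_sub hM.one_lt.le, Nat.cast_one]
        ring
    rw [key, abs_mul, abs_of_pos (by linarith : (0 : ℤ) < (p : ℤ) - 1)] at e2
    exact le_of_mul_le_mul_left e2 (by linarith)
  -- the explicit formula
  have e4 := ((hD p M k hp.two_le).1 (by omega)).1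
  rw [← hD1] at e4
  set F := k / p with hF
  have hF1 : 1 ≤ F := by rw [hF]; exact (Nat.one_le_div_iff hp.pos).2 hpk
  have hkF : p * F + k % p = k := Nat.div_add_mod k p
  have hrp : k % p < p := Nat.mod_lt _ hp.pos
  have hρM : k % M < M := Nat.mod_lt _ hM.pos
  have hF2 : 2 * F + 1 ≤ M := by
    have h1 : p * (2 * F) < p * M := by
      rw [show p * (2 * F) = 2 * (p * F) by ring]
      omega
    have := Nat.lt_of_mul_lt_mul_left h1
    omega
  have hMz : (3 : ℤ) ≤ M := by exact_mod_cast hM3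
  have hFz : 2 * (F : ℤ) + 1 ≤ M := by exact_mod_cast hF2
  have hF1z : (1 : ℤ) ≤ F := by exact_mod_cast hF1
  have hρz : ((k % M : ℕ) : ℤ) ≤ M - 1 := by
    have : ((k % M : ℕ) : ℤ) < M := by exact_mod_cast hρM
    linarith
  have hρ0 : (0 : ℤ) ≤ ((k % M : ℕ) : ℤ) := by positivity
  have hMM : ((M : ℕ) : ℤ) - 1 = ((M - 1 : ℕ) : ℤ) := by rw [Nat.cast_sub hM.one_lt.le]; simp
  by_contra hne
  have hMo : Odd M := hM.odd_of_ne_two (by omega)
  have e5 : ((M : ℤ) - 1) * |D1| = ((M - 1).choose F : ℤ) *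
      |((M : ℤ) - 1) * ((k % p : ℕ) : ℤ) - ((p : ℤ) - 1) * (F : ℤ)| := by
    have h1 := congrArg abs e4
    unfold ep at h1
    rw [abs_mul, abs_mul, abs_mul, abs_pow, abs_neg, abs_one, one_pow, one_mul,
      abs_of_pos (by linarith : (0 : ℤ) < (M : ℤ) - 1), Nat.abs_cast] at h1
    exact h1
  have hD1pos : 0 < |D1| := abs_pos.2 hne
  rcases Nat.lt_or_ge F 3 with hF3 | hF3
  · rcases Nat.lt_or_ge F 2 with hF4 | hF4
    · -- F = 1
      have hFe : F = 1 := by omega
      rw [hFe, Nat.choose_one_right, ← hMM] at e5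
      have e6 : |D1| = |((M : ℤ) - 1) * ((k % p : ℕ) : ℤ) - ((p : ℤ) - 1) * ((1 : ℕ) : ℤ)| := by
        exact mul_left_cancel₀ (by linarith : ((M : ℤ) - 1) ≠ 0) e5
      have hk' : k = p + k % p := by rw [hFe] at hkF; omega
      have hρ : k % M = k - M := by
        rw [Nat.mod_eq_sub_mod hMk, Nat.mod_eq_of_lt (by omega)]
      rw [hFe] at e3
      have hρz' : ((k % M : ℕ) : ℤ) = (p : ℤ) + (k % p : ℕ) - M := by
        rw [hρ, Nat.cast_sub hMk]
        have : (k : ℤ) = p + (k % p : ℕ) := by exact_mod_cast hk'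
        rw [this]
      set r := ((k % p : ℕ) : ℤ) with hr
      have hr0 : 0 ≤ r := by positivity
      rw [hρz'] at e3
      push_cast at e3 e6
      rw [mul_one] at e6
      rcases Nat.eq_or_lt_of_le hpM with hpM' | hpM'
      · have : (M : ℤ) = p := by exact_mod_cast hpM'.symm
        rw [this] at e3 e6
        have h1 : ((p : ℤ) - 1) * r - (p - 1) = (p - 1) * (r - 1) := by ring
        have h2 : (p : ℤ) + r - p - 1 = r - 1 := by ring
        rw [h1, abs_mul, abs_of_pos (by linarith : (0 : ℤ) < (p : ℤ) - 1)] at e6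
        rw [h2] at e3
        have h3 : 0 ≤ |r - 1| := abs_nonneg _
        have h4 : 2 * |r - 1| ≤ ((p : ℤ) - 1) * |r - 1| :=
          mul_le_mul_of_nonneg_right (by linarith) h3
        linarith
      · have hpo : Odd p := hp.odd_of_ne_two (by omega)
        have hMp2 : p + 2 ≤ M := by
          rcases Nat.lt_or_ge M (p + 2) with h1 | h1
          · exfalso
            have h2 : M = p + 1 := by omega
            rw [h2] at hMo
            exact (Nat.not_even_iff_odd.2 hMo) hpo.add_one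
          · exact h1
        have hMp2z : (p : ℤ) + 2 ≤ M := by exact_mod_cast hMp2
        have hr2 : (0 : ℤ) ≤ (p : ℤ) + r - M := by
          rw [← hρz']; positivity
        have hb : ((M : ℤ) - 2) * 2 ≤ ((M : ℤ) - 2) * r :=
          mul_le_mul_of_nonneg_left (by linarith) (by linarith)
        have hb2 : ((M : ℤ) - 1) * r = ((M : ℤ) - 2) * r + r := by ring
        have h1 : (0 : ℤ) ≤ ((M : ℤ) - 1) * r - (p - 1) := by linarith
        rw [abs_of_nonneg h1] at e6
        have h2 : |(p : ℤ) + r - M - 1| ≤ max 1 (r - 3) := by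
          rw [abs_le]
          constructor
          · have : (1 : ℤ) ≤ max 1 (r - 3) := le_max_left _ _
            linarith
          · have : (r - 3 : ℤ) ≤ max 1 (r - 3) := le_max_right _ _
            linarith
        rcases max_cases (1 : ℤ) (r - 3) with ⟨h3, h4⟩ | ⟨h3, h4⟩
        · rw [h3] at h2
          linarith
        · rw [h3] at h2
          linarith
    · -- F = 2
      have hFe : F = 2 := by omega
      have hM5 : (5 : ℤ) ≤ M := by rw [hFe] at hFz; push_cast at hFz; linarith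
      have hch := ch2 hM3
      rw [hFe] at e5 e3
      set W := |((M : ℤ) - 1) * ((k % p : ℕ) : ℤ) - ((p : ℤ) - 1) * ((2 : ℕ) : ℤ)| with hW
      have e6 : 2 * |D1| = ((M : ℤ) - 2) * W := by
        have h1 : ((M : ℤ) - 1) * (2 * |D1|) = ((M : ℤ) - 1) * (((M : ℤ) - 2) * W) := by
          calc ((M : ℤ) - 1) * (2 * |D1|) = 2 * (((M : ℤ) - 1) * |D1|) := by ring
            _ = (2 * ((M - 1).choose 2 : ℤ)) * W := by rw [e5]; ring
            _ = _ := by rw [hch]; ring
        exact mul_left_cancel₀ (by linarith : ((M : ℤ) - 1) ≠ 0) h1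
      have e7 : |((k % M : ℕ) : ℤ) - ((2 : ℕ) : ℤ)| ≤ M - 3 := by
        rw [abs_le, Nat.cast_ofNat]
        constructor <;> linarith
      have hW0 : 0 ≤ W := abs_nonneg _
      have hW2 : W < 2 := by
        by_contra hcon
        push Not at hcon
        have h1 : ((M : ℤ) - 2) * 2 ≤ ((M : ℤ) - 2) * W :=
          mul_le_mul_of_nonneg_left hcon (by linarith)
        linarith
      have hWeven : 2 ∣ W := by
        rw [hW, dvd_abs]
        apply dvd_sub
        · apply Dvd.dvd.mul_right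
          obtain ⟨c, hc⟩ := hMo
          exact ⟨c, by rw [hc]; push_cast; ring⟩
        · exact Dvd.dvd.mul_left (by norm_num) _
      have hWz : W = 0 := by
        obtain ⟨c, hc⟩ := hWeven
        omega
      rw [hWz, mul_zero] at e6
      linarith
  · -- F ≥ 3
    have hM7 : (7 : ℤ) ≤ M := by
      have : (3 : ℤ) ≤ F := by exact_mod_cast hF3
      linarith
    have hF3z : (3 : ℤ) ≤ F := by exact_mod_cast hF3
    have hW1 : 1 ≤ |((M : ℤ) - 1) * ((k % p : ℕ) : ℤ) - ((p : ℤ) - 1) * (F : ℤ)| := by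
      by_contra hcon
      have h1 : |((M : ℤ) - 1) * ((k % p : ℕ) : ℤ) - ((p : ℤ) - 1) * (F : ℤ)| = 0 := by
        have := abs_nonneg (((M : ℤ) - 1) * ((k % p : ℕ) : ℤ) - ((p : ℤ) - 1) * (F : ℤ))
        omega
      rw [h1, mul_zero] at e5
      rcases mul_eq_zero.1 e5 with h2 | h2 <;> linarith
    have hch0 : (0 : ℤ) ≤ ((M - 1).choose F : ℤ) := by positivity
    have e6 : ((M - 1).choose F : ℤ) ≤ ((M : ℤ) - 1) * |D1| := by
      rw [e5]; exact le_mul_of_one_le_right hch0 hW1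
    have e7 : |((k % M : ℕ) : ℤ) - (F : ℤ)| ≤ M - 4 := by
      rw [abs_le]
      constructor <;> linarith
    have hmono : (M - 1).choose 3 ≤ (M - 1).choose F := mono3 hF3 hF2
    have hch3 : 6 * ((M - 1).choose 3 : ℤ) = ((M : ℤ) - 1) * (M - 2) * (M - 3) :=
      ch3 (by omega)
    have hmz : ((M - 1).choose 3 : ℤ) ≤ ((M - 1).choose F : ℤ) := by exact_mod_cast hmono
    have e8 : ((M : ℤ) - 1) * ((M - 2) * (M - 3)) ≤ ((M : ℤ) - 1) * (6 * (M - 4)) := by
      calc ((M : ℤ) - 1) * ((M - 2) * (M - 3)) = 6 * ((M - 1).choose 3 : ℤ) := by rw [hch3]; ring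
        _ ≤ 6 * (((M : ℤ) - 1) * |D1|) := by linarith
        _ ≤ 6 * (((M : ℤ) - 1) * (M - 4)) := by
          have := mul_le_mul_of_nonneg_left (e3.trans e7) (by linarith : (0 : ℤ) ≤ (M : ℤ) - 1)
          linarith
        _ = _ := by ring
    have e9 := le_of_mul_le_mul_left e8 (by linarith : (0 : ℤ) < (M : ℤ) - 1)
    have e10 : (0 : ℤ) < ((M : ℤ) - 5) * (M - 6) := mul_pos (by linarith) (by linarith)
    have e11 : ((M : ℤ) - 2) * (M - 3) = ((M : ℤ) - 5) * (M - 6) + 6 * (M - 4) := by ring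
    linarith

end Pool.Agent.Helper73.SD
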